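import Pool.Agent.TH198.AT.Stmts

set_option autoImplicit false

open MeasureTheory ProbabilityTheory Set

namespace Pool.TH283.AT

open Pool.TH198.AT

/-! ### Elementary facts -/

theorem sech_pos (x : ℝ) : 0 < sech x := by
  unfold sech; exact inv_pos.mpr (Real.cosh_pos x)

theorem sech_le_one (x : ℝ) : sech x ≤ 1 := by
  unfold sech
  exact inv_le_one_of_one_le₀ (Real.one_le_cosh x)

theorem sech_pow_le_one (k : ℕ) (x : ℝ) : sech x ^ k ≤ 1 :=
  pow_le_one₀ (sech_pos x).le (sech_le_one x)

theorem sech_pow_nonneg (k : ℕ) (x : ℝ) : 0 ≤ sech x ^ k := pow_nonneg (sech_pos x).le k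

theorem continuous_sech : Continuous sech := by
  unfold sech
  exact Real.continuous_cosh.inv₀ (fun x => (Real.cosh_pos x).ne')

theorem continuous_tanh : Continuous Real.tanh := by
  have : Real.tanh = fun x => Real.sinh x / Real.cosh x := by
    funext x; exact Real.tanh_eq_sinh_div_cosh x
  rw [this]
  exact Real.continuous_sinh.div Real.continuous_cosh (fun x => (Real.cosh_pos x).ne')

theorem tanh_sq_add (x : ℝ) : Real.tanh x ^ 2 = 1 - sech x ^ 2 := by
  have h := Real.cosh_sq_sub_sinh_sq x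
  have hc := (Real.cosh_pos x).ne'
  rw [Real.tanh_eq_sinh_div_cosh]
  unfold sech
  field_simp
  linarith

theorem tanh_sq_le_one (x : ℝ) : Real.tanh x ^ 2 ≤ 1 := by
  rw [tanh_sq_add]; have := sech_pow_nonneg 2 x; linarith

theorem abs_tanh_le_one (x : ℝ) : |Real.tanh x| ≤ 1 := by
  have := tanh_sq_le_one x
  exact abs_le_one_iff_mul_self_le_one.mpr (by nlinarith)

/-! ### Integrals against the Gaussian -/

theorem integrable_of_bdd (F : ℝ → ℝ) (C : ℝ) (hF : Continuous F) (hb : ∀ x, |F x| ≤ C) :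
    Integrable F (gaussianReal 0 1) := by
  refine Integrable.mono' (integrable_const C) hF.aestronglyMeasurable ?_
  exact Filter.Eventually.of_forall (fun x => by rw [Real.norm_eq_abs]; exact hb x)

theorem E1_mono (F G : ℝ → ℝ) (C : ℝ) (hF : Continuous F) (hG : Continuous G)
    (hbF : ∀ x, |F x| ≤ C) (hbG : ∀ x, |G x| ≤ C) (h : ∀ x, F x ≤ G x) : E1 F ≤ E1 G := by
  unfold E1
  exact integral_mono (integrable_of_bdd F C hF hbF) (integrable_of_bdd G C hG hbG) h

theorem E1_nonneg (F : ℝ → ℝ) (h : ∀ x, 0 ≤ F x) : 0 ≤ E1 F := by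
  unfold E1; exact integral_nonneg h

theorem E1_const (c : ℝ) : E1 (fun _ => c) = c := by
  unfold E1; simp

theorem E1_abs_le (F : ℝ → ℝ) (C : ℝ) (hb : ∀ x, |F x| ≤ C) : |E1 F| ≤ C := by
  unfold E1
  have := norm_integral_le_of_norm_le_const (μ := gaussianReal 0 1) (f := F) (C := C)
    (Filter.Eventually.of_forall (fun x => by rw [Real.norm_eq_abs]; exact hb x))
  rw [Real.norm_eq_abs] at this
  simpa using this

/-- continuity of the inner expectation in the outer variable -/
theorem continuous_inner (f : ℝ → ℝ) (C : ℝ) (hf : Continuous f) (hb : ∀ x, |f x| ≤ C)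
    (x a b : ℝ) : Continuous (fun z : ℝ => E1 (fun y => f (x + a * z + b * y))) := by
  unfold E1
  apply continuous_of_dominated (bound := fun _ => C)
  · intro z
    exact (hf.comp (by fun_prop)).aestronglyMeasurable
  · intro z
    exact Filter.Eventually.of_forall (fun y => by rw [Real.norm_eq_abs]; exact hb _)
  · exact integrable_const C
  · exact Filter.Eventually.of_forall (fun _ => hf.comp (by fun_prop))


/-! ### The functions `V k` -/

theorem continuous_inner_pow (k : ℕ) (h s v : ℝ) :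
    Continuous (fun z : ℝ => E1 (fun y => sech (h + √s * z + √v * y) ^ k)) := by
  have := continuous_inner (fun x => sech x ^ k) 1 (continuous_sech.pow k)
    (fun x => by rw [abs_of_nonneg (sech_pow_nonneg k x)]; exact sech_pow_le_one k x) h (√s) (√v)
  exact this

theorem inner_nonneg (k : ℕ) (x v : ℝ) : 0 ≤ E1 (fun y => sech (x + √v * y) ^ k) :=
  E1_nonneg _ (fun _ => sech_pow_nonneg k _)

theorem inner_le_one (k : ℕ) (x v : ℝ) : E1 (fun y => sech (x + √v * y) ^ k) ≤ 1 := by
  have h := E1_abs_le (fun y => sech (x + √v * y) ^ k) 1 (fun y => by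
    rw [abs_of_nonneg (sech_pow_nonneg k _)]; exact sech_pow_le_one k _)
  exact (le_abs_self _).trans h

theorem outer_continuous (k : ℕ) (h s v : ℝ) :
    Continuous (fun z : ℝ => sech (h + √s * z) * E1 (fun y => sech (h + √s * z + √v * y) ^ k)) :=
  (continuous_sech.comp (by fun_prop)).mul (continuous_inner_pow k h s v)

theorem outer_nonneg (k : ℕ) (h s v z : ℝ) :
    0 ≤ sech (h + √s * z) * E1 (fun y => sech (h + √s * z + √v * y) ^ k) :=
  mul_nonneg (sech_pos _).le (inner_nonneg k _ v)

theorem outer_le_one (k : ℕ) (h s v z : ℝ) :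
    sech (h + √s * z) * E1 (fun y => sech (h + √s * z + √v * y) ^ k) ≤ 1 :=
  mul_le_one₀ (sech_le_one _) (inner_nonneg k _ v) (inner_le_one k _ v)

theorem outer_abs (k : ℕ) (h s v z : ℝ) :
    |sech (h + √s * z) * E1 (fun y => sech (h + √s * z + √v * y) ^ k)| ≤ 1 := by
  rw [abs_of_nonneg (outer_nonneg k h s v z)]; exact outer_le_one k h s v z

theorem V_nonneg (k : ℕ) (s h v : ℝ) : 0 ≤ V k s h v := by
  unfold V
  exact mul_nonneg (Real.exp_pos _).le (E1_nonneg _ (fun z => outer_nonneg k h s v z))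

theorem V_zero (k : ℕ) (s h : ℝ) : V k s h 0 = E1 (fun z => sech (h + √s * z) ^ (k + 1)) := by
  unfold V
  have h1 : (fun z : ℝ => sech (h + √s * z) * E1 (fun y => sech (h + √s * z + √0 * y) ^ k))
      = fun z => sech (h + √s * z) ^ (k + 1) := by
    funext z
    have : (fun y : ℝ => sech (h + √s * z + √0 * y) ^ k) = fun _ => sech (h + √s * z) ^ k := by
      funext y; rw [Real.sqrt_zero, zero_mul, add_zero]
    rw [this, E1_const, pow_succ, mul_comm]
  rw [h1]; simp

theorem V3_le_V1 (s h v : ℝ) : V 3 s h v ≤ V 1 s h v := by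
  unfold V
  apply mul_le_mul_of_nonneg_left _ (Real.exp_pos _).le
  apply E1_mono _ _ 1 (outer_continuous 3 h s v) (outer_continuous 1 h s v)
    (outer_abs 3 h s v) (outer_abs 1 h s v)
  intro z
  apply mul_le_mul_of_nonneg_left _ (sech_pos _).le
  apply E1_mono _ _ 1
  · exact (continuous_sech.comp (by fun_prop)).pow 3
  · exact (continuous_sech.comp (by fun_prop)).pow 1
  · intro y
    rw [abs_of_nonneg (sech_pow_nonneg 3 _)]; exact sech_pow_le_one 3 _
  · intro y
    rw [abs_of_nonneg (sech_pow_nonneg 1 _)]; exact sech_pow_le_one 1 _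
  · intro y
    exact pow_le_pow_of_le_one (sech_pos _).le (sech_le_one _) (by norm_num)

theorem V_le_one (k : ℕ) (s h v : ℝ) (hv : 0 ≤ v) : V k s h v ≤ 1 := by
  unfold V
  apply mul_le_one₀
  · rw [Real.exp_le_one_iff]; linarith
  · exact E1_nonneg _ (fun z => outer_nonneg k h s v z)
  · exact (le_abs_self _).trans (E1_abs_le _ 1 (outer_abs k h s v))

/-- `V 1` lies above the line of slope `-c` if `V 3 ≤ c` -/
theorem V1_ge (hVD : St_VD) (s h c : ℝ) (hs : 0 ≤ s) (hc : ∀ v, 0 < v → V 3 s h v ≤ c)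
    (v : ℝ) (hv : 0 ≤ v) : V 1 s h 0 - c * v ≤ V 1 s h v := by
  obtain ⟨h1, -, h3, -⟩ := hVD s h hs
  have hmono : MonotoneOn (fun v => V 1 s h v + c * v) (Ici 0) := by
    apply monotoneOn_of_deriv_nonneg (convex_Ici 0)
    · exact h3.add (by fun_prop)
    · intro x hx
      rw [interior_Ici] at hx
      exact (((h1 x hx).add ((hasDerivAt_id x).const_mul c)).differentiableAt).differentiableWithinAt
    · intro x hx
      rw [interior_Ici] at hx
      have : HasDerivAt (fun v => V 1 s h v + c * v) (-V 3 s h x + c * 1) x :=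
        (h1 x hx).add ((hasDerivAt_id x).const_mul c)
      rw [this.deriv]
      have := hc x hx
      linarith
  have := hmono (show (0 : ℝ) ∈ Ici 0 from Set.mem_Ici.mpr le_rfl) (show v ∈ Ici (0 : ℝ) from hv) hv
  simp only at this
  linarith

theorem V1_le (hVD : St_VD) (s h : ℝ) (hs : 0 ≤ s) (v : ℝ) (hv : 0 ≤ v) :
    V 1 s h v ≤ V 1 s h 0 := by
  obtain ⟨h1, -, h3, -⟩ := hVD s h hs
  have hanti : AntitoneOn (V 1 s h) (Ici 0) := by
    apply antitoneOn_of_deriv_nonpos (convex_Ici 0) h3
    · intro x hx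
      rw [interior_Ici] at hx
      exact (h1 x hx).differentiableAt.differentiableWithinAt
    · intro x hx
      rw [interior_Ici] at hx
      rw [(h1 x hx).deriv]
      have := V_nonneg 3 s h x
      linarith
  exact hanti (show (0 : ℝ) ∈ Ici 0 from Set.mem_Ici.mpr le_rfl) (show v ∈ Ici (0 : ℝ) from hv) hv

theorem V3_le (hVD : St_VD) (hCLAIM : St_CLAIM) (s h : ℝ) (hs : 0 < s) (hh : 0 ≤ h)
    (hI : h ^ 2 ≤ 2 * s ^ 2 + s) (v : ℝ) (hv : 0 ≤ v) : V 3 s h v ≤ V 3 s h 0 := by
  obtain ⟨-, h2, -, h4⟩ := hVD s h hs.le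
  have hanti : AntitoneOn (V 3 s h) (Ici 0) := by
    apply antitoneOn_of_deriv_nonpos (convex_Ici 0) h4
    · intro x hx
      rw [interior_Ici] at hx
      exact (h2 x hx).differentiableAt.differentiableWithinAt
    · intro x hx
      rw [interior_Ici] at hx
      rw [(h2 x hx).deriv]
      have := mul_nonneg (Real.exp_pos (-x / 2)).le (hCLAIM s h x hs hh hI hx)
      linarith
  exact hanti (show (0 : ℝ) ∈ Ici 0 from Set.mem_Ici.mpr le_rfl) (show v ∈ Ici (0 : ℝ) from hv) hv

/-- piece AT-CORE -/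
theorem t_CORE (hPOIN : St_POIN) (hSEMI : St_SEMI) (hVD : St_VD) (hCLAIM : St_CLAIM)
    (hCASE2 : St_CASE2) : St_CORE := by
  intro β h q hβ hh ⟨hq0, hq, hB⟩
  have hsqrt : √(2 * β ^ 2 * q) = β * √(2 * q) := by
    rw [show 2 * β ^ 2 * q = β ^ 2 * (2 * q) by ring, Real.sqrt_mul (by positivity),
      Real.sqrt_sq hβ.le]
  have harg : ∀ z : ℝ, β * z * √(2 * q) + h = h + √(2 * β ^ 2 * q) * z := by
    intro z; rw [hsqrt]; ring
  simp only [harg] at hq hB
  have hβ2 : 0 < β ^ 2 := by positivity
  constructor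
  · -- `t < q`
    intro t ht htq
    have hphi : phi β h q t = E1 (fun z => (E1 (fun y =>
      Real.tanh (h + √(2 * β ^ 2 * t) * z + √(2 * β ^ 2 * (q - t)) * y))) ^ 2) := by
      unfold phi; rw [if_pos htq]
    rw [hphi]
    set u : ℝ := 2 * β ^ 2 * t with hu
    set w : ℝ := 2 * β ^ 2 * (q - t) with hw
    have hu0 : 0 ≤ u := by positivity
    have hw0 : 0 ≤ w := mul_nonneg (by positivity) (by linarith)
    have huw : u + w = 2 * β ^ 2 * q := by rw [hu, hw]; ring
    -- semigroup property
    have e1 : E1 (fun z => E1 (fun y => Real.tanh (h + √u * z + √w * y) ^ 2)) = q := by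
      have := hSEMI (fun x => Real.tanh x ^ 2) 1 (continuous_tanh.pow 2) (fun x => by
        rw [abs_of_nonneg (sq_nonneg _)]
        have := tanh_sq_le_one x
        have := abs_nonneg x
        linarith) h u w hu0 hw0
      rw [this, huw, ← hq]
    have e2 : E1 (fun z => E1 (fun y => sech (h + √u * z + √w * y) ^ 4))
        = E1 (fun z => sech (h + √(2 * β ^ 2 * q) * z) ^ 4) := by
      have := hSEMI (fun x => sech x ^ 4) 1 (continuous_sech.pow 4) (fun x => by
        rw [abs_of_nonneg (sech_pow_nonneg 4 x)]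
        have := sech_pow_le_one 4 x
        have := abs_nonneg x
        linarith) h u w hu0 hw0
      rw [this, huw]
    -- continuity
    have c1 : Continuous (fun z : ℝ => E1 (fun y => Real.tanh (h + √u * z + √w * y) ^ 2)) :=
      continuous_inner (fun x => Real.tanh x ^ 2) 1 (continuous_tanh.pow 2) (fun x => by
        rw [abs_of_nonneg (sq_nonneg _)]; exact tanh_sq_le_one x) h (√u) (√w)
    have c2 : Continuous (fun z : ℝ => E1 (fun y => Real.tanh (h + √u * z + √w * y))) :=
      continuous_inner Real.tanh 1 continuous_tanh abs_tanh_le_one h (√u) (√w)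
    have c3 : Continuous (fun z : ℝ => E1 (fun y => sech (h + √u * z + √w * y) ^ 4)) :=
      continuous_inner_pow 4 h u w
    have b1 : ∀ z : ℝ, |E1 (fun y => Real.tanh (h + √u * z + √w * y) ^ 2)| ≤ 1 := fun z =>
      E1_abs_le _ 1 (fun y => by rw [abs_of_nonneg (sq_nonneg _)]; exact tanh_sq_le_one _)
    have b2 : ∀ z : ℝ, |(E1 (fun y => Real.tanh (h + √u * z + √w * y))) ^ 2| ≤ 1 := fun z => by
      have := E1_abs_le (fun y => Real.tanh (h + √u * z + √w * y)) 1 (fun y => abs_tanh_le_one _)
      rw [abs_pow]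
      exact pow_le_one₀ (abs_nonneg _) this
    have b3 : ∀ z : ℝ, |E1 (fun y => sech (h + √u * z + √w * y) ^ 4)| ≤ 1 := fun z =>
      E1_abs_le _ 1 (fun y => by
        rw [abs_of_nonneg (sech_pow_nonneg 4 _)]; exact sech_pow_le_one 4 _)
    have i1 := integrable_of_bdd _ 1 c1 b1
    have i2 : Integrable (fun z : ℝ => (E1 (fun y => Real.tanh (h + √u * z + √w * y))) ^ 2)
        (gaussianReal 0 1) := integrable_of_bdd _ 1 (c2.pow 2) b2
    have i3 := integrable_of_bdd _ 1 c3 b3
    have key : E1 (fun z => E1 (fun y => Real.tanh (h + √u * z + √w * y) ^ 2))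
        - w * E1 (fun z => E1 (fun y => sech (h + √u * z + √w * y) ^ 4))
        ≤ E1 (fun z => (E1 (fun y => Real.tanh (h + √u * z + √w * y))) ^ 2) := by
      have e3 : E1 (fun z => E1 (fun y => Real.tanh (h + √u * z + √w * y) ^ 2))
        - w * E1 (fun z => E1 (fun y => sech (h + √u * z + √w * y) ^ 4))
        = ∫ z, (E1 (fun y => Real.tanh (h + √u * z + √w * y) ^ 2)
          - w * E1 (fun y => sech (h + √u * z + √w * y) ^ 4)) ∂(gaussianReal 0 1) := by
        rw [integral_sub i1 (i3.const_mul w), integral_const_mul]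
        rfl
      rw [e3]
      show _ ≤ ∫ z, (E1 (fun y => Real.tanh (h + √u * z + √w * y))) ^ 2 ∂(gaussianReal 0 1)
      apply integral_mono (i1.sub (i3.const_mul w)) i2
      intro z
      have := hPOIN (h + √u * z) (√w) (Real.sqrt_nonneg _)
      rw [Real.sq_sqrt hw0] at this
      show E1 (fun y => Real.tanh (h + √u * z + √w * y) ^ 2)
        - w * E1 (fun y => sech (h + √u * z + √w * y) ^ 4)
        ≤ (E1 (fun y => Real.tanh (h + √u * z + √w * y))) ^ 2
      linarith
    rw [e1, e2] at key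
    have hwB : w * E1 (fun z => sech (h + √(2 * β ^ 2 * q) * z) ^ 4) ≤ q - t := by
      have : w * E1 (fun z => sech (h + √(2 * β ^ 2 * q) * z) ^ 4)
          = (q - t) * (2 * (β ^ 2 * E1 (fun z => sech (h + √(2 * β ^ 2 * q) * z) ^ 4))) := by
        rw [hw]; ring
      rw [this]
      have h5 : 0 ≤ q - t := by linarith
      nlinarith
    linarith
  · -- `q ≤ t`
    intro t htq ht1
    have hphi : phi β h q t = 1 - V 1 (2 * β ^ 2 * q) h (2 * β ^ 2 * (t - q)) := by
      unfold phi; rw [if_neg (not_lt.mpr htq)]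
    rw [hphi]
    set s : ℝ := 2 * β ^ 2 * q with hs
    have hs0 : 0 ≤ s := by positivity
    have hv0 : 0 ≤ 2 * β ^ 2 * (t - q) := mul_nonneg (by positivity) (by linarith)
    have hD : V 1 s h 0 = 1 - q := by
      rw [V_zero]
      have e : (fun z : ℝ => sech (h + √s * z) ^ (1 + 1))
          = fun z => 1 - Real.tanh (h + √s * z) ^ 2 := by
        funext z; rw [tanh_sq_add]; ring
      rw [e]
      have hi : Integrable (fun z : ℝ => Real.tanh (h + √s * z) ^ 2) (gaussianReal 0 1) :=
        integrable_of_bdd _ 1 ((continuous_tanh.comp (f := fun z : ℝ => h + √s * z)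
          (by fun_prop)).pow 2) (fun x => by
            rw [abs_of_nonneg (sq_nonneg _)]; exact tanh_sq_le_one _)
      have : E1 (fun z => 1 - Real.tanh (h + √s * z) ^ 2)
          = 1 - E1 (fun z => Real.tanh (h + √s * z) ^ 2) := by
        have h12 := integral_sub (μ := gaussianReal 0 1) (integrable_const (1 : ℝ)) hi
        have h13 : ∫ _ : ℝ, (1 : ℝ) ∂(gaussianReal 0 1) = 1 := by simp
        rw [h13] at h12
        exact h12
      rw [this, ← hq]
    -- the bound on `V 3`
    have hV3 : ∀ v, 0 < v → V 3 s h v ≤ 1 / (2 * β ^ 2) := by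
      intro v hv
      have hB' : E1 (fun z => sech (h + √s * z) ^ 4) ≤ 1 / (2 * β ^ 2) := by
        rw [le_div_iff₀ (by positivity)]; linarith
      rcases eq_or_lt_of_le hq0 with h0 | h0
      · -- q = 0
        have hs1 : s = 0 := by rw [hs, ← h0, mul_zero]
        have h6 : Real.tanh h ^ 2 = 0 := by
          rw [hs1] at hq
          simp only [Real.sqrt_zero, zero_mul, add_zero] at hq
          rw [E1_const] at hq
          rw [← hq, ← h0]
        have h7 : sech h ^ 2 = 1 := by rw [tanh_sq_add] at h6; linarith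
        have h8 : E1 (fun z => sech (h + √s * z) ^ 4) = 1 := by
          rw [hs1]
          simp only [Real.sqrt_zero, zero_mul, add_zero]
          rw [E1_const, show sech h ^ 4 = (sech h ^ 2) ^ 2 by ring, h7]; norm_num
        rw [h8] at hB'
        exact (V_le_one 3 s h v hv.le).trans hB'
      · have hs1 : 0 < s := by rw [hs]; positivity
        rcases le_total (h ^ 2) (2 * s ^ 2 + s) with hI | hI
        · have h9 := V3_le hVD hCLAIM s h hs1 hh hI v hv.le
          rw [V_zero] at h9
          exact h9.trans hB'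
        · have h9 := hCASE2 s h hs1 hh hI
          have hD2 : E1 (fun z => sech (h + √s * z) ^ 2) = 1 - q := by
            rw [← hD, V_zero]
          rw [hD2, ← hq] at h9
          have h10 : 1 - q ≤ 1 / (2 * β ^ 2) := by
            rw [le_div_iff₀ (by positivity)]
            have h11 : (2 * β ^ 2 * (1 - q)) * q ≤ 1 * q := by
              calc (2 * β ^ 2 * (1 - q)) * q = s * (1 - q) := by rw [hs]; ring
                _ ≤ q := h9
                _ = 1 * q := by ring
            have := le_of_mul_le_mul_right h11 h0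
            linarith
          exact ((V3_le_V1 s h v).trans (V1_le hVD s h hs0 v hv.le)).trans (hD ▸ h10)
    have := V1_ge hVD s h (1 / (2 * β ^ 2)) hs0 hV3 (2 * β ^ 2 * (t - q)) hv0
    rw [hD] at this
    have e : 1 / (2 * β ^ 2) * (2 * β ^ 2 * (t - q)) = t - q := by
      field_simp
    rw [e] at this
    linarith

end Pool.TH283.AT

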