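import Pool.Agent.TH316.AT.Ex
import Pool.Agent.TH325.AT.Reg

set_option autoImplicit false

open MeasureTheory ProbabilityTheory Set

namespace Pool.TH283.AT

open Pool.TH198.AT Pool.TH316.AT

theorem int_abs : Integrable (fun y : ℝ => |y|) (gaussianReal 0 1) :=
  ((memLp_id_gaussianReal (μ := 0) (v := 1) 1).integrable (by norm_num)).abs

theorem int_sq : Integrable (fun y : ℝ => y ^ 2) (gaussianReal 0 1) := by
  have h := (memLp_id_gaussianReal (μ := 0) (v := 1) 2).integrable_norm_pow (by norm_num)
  refine h.congr (Filter.Eventually.of_forall fun y => ?_)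
  simp

theorem cont_E1y {X : Type*} [TopologicalSpace X] [FirstCountableTopology X] {Φ : X → ℝ → ℝ}
    {C : ℝ} (h : Continuous (fun p : X × ℝ => Φ p.1 p.2)) (hb : ∀ x y, |Φ x y| ≤ C) :
    Continuous (fun x => E1 (fun y => y * Φ x y)) := by
  unfold E1
  apply continuous_of_dominated (F := fun x y => y * Φ x y) (bound := fun y => |y| * C)
  · intro x
    exact (continuous_id.mul
      (h.comp (by fun_prop : Continuous fun y : ℝ => (x, y)))).aestronglyMeasurable
  · intro x
    refine Filter.Eventually.of_forall (fun y => ?_)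
    rw [Real.norm_eq_abs, abs_mul]
    exact mul_le_mul_of_nonneg_left (hb x y) (abs_nonneg y)
  · exact int_abs.mul_const C
  · exact Filter.Eventually.of_forall (fun y => continuous_const.mul
      (h.comp (by fun_prop : Continuous fun x : X => (x, y))))

theorem E1y_bd {Φ : ℝ → ℝ} {C : ℝ} (hb : ∀ y, |Φ y| ≤ C) :
    |E1 (fun y => y * Φ y)| ≤ E1 (fun y => |y|) * C := by
  unfold E1
  rw [← integral_mul_const]
  have h := norm_integral_le_of_norm_le (μ := gaussianReal 0 1) (f := fun y => y * Φ y)
    (g := fun y => |y| * C) (int_abs.mul_const C) (Filter.Eventually.of_forall fun y => by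
      rw [Real.norm_eq_abs, abs_mul]
      exact mul_le_mul_of_nonneg_left (hb y) (abs_nonneg y))
  simpa using h

/-- the derivative of the heat extension of a bounded continuous function -/
theorem gauss (hS : St_STEIN) (g : ℝ → ℝ) (C : ℝ) (hg : Continuous g) (hb : ∀ x, |g x| ≤ C)
    (s x : ℝ) (hs : s ≠ 0) :
    HasDerivAt (fun x => E1 (fun y => g (x + s * y))) (E1 (fun y => y * g (x + s * y)) / s) x := by
  have hC : 0 ≤ C := (abs_nonneg _).trans (hb 0)
  set G : ℝ → ℝ := fun x => ∫ r in (0 : ℝ)..x, g r with hG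
  have hGd : ∀ x, HasDerivAt G (g x) x := fun x =>
    intervalIntegral.integral_hasDerivAt_right (hg.intervalIntegrable 0 x)
      (hg.stronglyMeasurableAtFilter _ _) hg.continuousAt
  have hGc : Continuous G := continuous_iff_continuousAt.2 fun x => (hGd x).continuousAt
  have hGb : ∀ x, |G x| ≤ C * |x| := by
    intro x
    have h := intervalIntegral.norm_integral_le_of_norm_le_const (a := (0 : ℝ)) (b := x) (f := g)
      (C := C) (fun r _ => by rw [Real.norm_eq_abs]; exact hb r)
    rw [Real.norm_eq_abs, sub_zero] at h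
    exact h
  have hGb2 : ∀ x y : ℝ, |G (x + s * y)| ≤ C * (|x| + |s| * |y|) := by
    intro x y
    refine (hGb _).trans (mul_le_mul_of_nonneg_left ?_ hC)
    calc |x + s * y| ≤ |x| + |s * y| := abs_add_le _ _
      _ = |x| + |s| * |y| := by rw [abs_mul]
  -- Stein
  have hst : ∀ x : ℝ, E1 (fun y => g (x + s * y)) = E1 (fun y => y * G (x + s * y)) / s := by
    intro x
    have h1 := hS (fun y => G (x + s * y)) (fun y => s * g (x + s * y)) (C * (|x| + |s|)) 1
      (fun y => by
        have h2 : HasDerivAt (fun y : ℝ => x + s * y) s y := by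
          simpa using ((hasDerivAt_id y).const_mul s).const_add x
        have h3 := (hGd (x + s * y)).comp y h2
        rw [mul_comm] at h3
        exact h3)
      (continuous_const.mul (hg.comp (by fun_prop)))
      (fun y => by
        refine (hGb2 x y).trans ?_
        rw [mul_assoc]
        apply mul_le_mul_of_nonneg_left _ hC
        have h4 : 1 ≤ Real.exp (1 * |y|) := by
          rw [one_mul]; exact Real.one_le_exp (abs_nonneg y)
        have h5 : |y| ≤ Real.exp (1 * |y|) := by
          rw [one_mul]
          have := Real.add_one_le_exp |y|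
          linarith
        have h6 := abs_nonneg x
        have h7 := abs_nonneg s
        nlinarith)
      (fun y => by
        rw [abs_mul]
        have h4 : 1 ≤ Real.exp (1 * |y|) := by
          rw [one_mul]; exact Real.one_le_exp (abs_nonneg y)
        have h6 := abs_nonneg x
        have h7 := abs_nonneg s
        have h8 := hb (x + s * y)
        calc |s| * |g (x + s * y)| ≤ |s| * C := mul_le_mul_of_nonneg_left h8 h7
          _ ≤ C * (|x| + |s|) * 1 := by nlinarith [mul_nonneg hC h6]
          _ ≤ C * (|x| + |s|) * Real.exp (1 * |y|) :=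
              mul_le_mul_of_nonneg_left h4 (mul_nonneg hC (by linarith)))
    have h9 : E1 (fun y => s * g (x + s * y)) = s * E1 (fun y => g (x + s * y)) := by
      unfold E1; rw [integral_const_mul]
    rw [h9] at h1
    rw [h1]
    field_simp
  have hfun : (fun x => E1 (fun y => g (x + s * y))) = fun x => E1 (fun y => y * G (x + s * y)) / s :=
    funext hst
  rw [hfun]
  apply HasDerivAt.div_const
  have h := hasDerivAt_integral_of_dominated_loc_of_deriv_le (μ := gaussianReal 0 1)
    (F := fun x y => y * G (x + s * y)) (F' := fun x y => y * g (x + s * y)) (x₀ := x)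
    (s := univ) (bound := fun y => |y| * C) Filter.univ_mem
    (Filter.Eventually.of_forall fun z =>
      (continuous_id.mul (hGc.comp (by fun_prop : Continuous fun y : ℝ => z + s * y))).aestronglyMeasurable)
    (by
      refine Integrable.mono' (g := fun y => C * |x| * |y| + C * |s| * y ^ 2)
        ((int_abs.const_mul _).add (int_sq.const_mul _))
        (continuous_id.mul
          (hGc.comp (by fun_prop : Continuous fun y : ℝ => x + s * y))).aestronglyMeasurable ?_
      filter_upwards with y
      rw [Real.norm_eq_abs, abs_mul]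
      have h1 := mul_le_mul_of_nonneg_left (hGb2 x y) (abs_nonneg y)
      refine h1.trans (le_of_eq ?_)
      rw [← sq_abs y]; ring)
    (continuous_id.mul (hg.comp (by fun_prop : Continuous fun y : ℝ => x + s * y))).aestronglyMeasurable
    (Filter.Eventually.of_forall fun y z _ => by
      rw [Real.norm_eq_abs, abs_mul]
      exact mul_le_mul_of_nonneg_left (hb _) (abs_nonneg y))
    (int_abs.mul_const C)
    (Filter.Eventually.of_forall fun y z _ => by
      have h1 : HasDerivAt (fun z => z + s * y) 1 z := (hasDerivAt_id z).add_const _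
      have h2 := (hGd (z + s * y)).comp z h1
      rw [mul_one] at h2
      exact h2.const_mul y)
  exact h.2

/-! ### the distribution function -/

theorem zt_meas {ζ : ℝ → ℝ} (hζ : IsCdf ζ) : Measurable (zt ζ) := by
  have hmono : Monotone (fun s : ℝ => ζ (max 0 (min s 1))) := by
    intro s s' hss
    apply hζ.1
    · exact ⟨le_max_left _ _, max_le zero_le_one (min_le_right _ _)⟩
    · exact ⟨le_max_left _ _, max_le zero_le_one (min_le_right _ _)⟩
    · exact max_le_max le_rfl (min_le_min hss le_rfl)
  have he : zt ζ = fun s => if s ≤ 1 then ζ (max 0 (min s 1)) else 0 := by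
    funext s
    unfold zt
    by_cases h : s ≤ 1
    · rw [if_pos h, if_pos h, min_eq_left h]
    · rw [if_neg h, if_neg h]
  rw [he]
  exact Measurable.ite measurableSet_Iic hmono.measurable measurable_const

theorem zt_bd {ζ : ℝ → ℝ} (hζ : IsCdf ζ) (s : ℝ) : |zt ζ s| ≤ 1 := by
  unfold zt
  by_cases h : s ≤ 1
  · rw [if_pos h]
    have := hζ.2.1 (max 0 s) ⟨le_max_left _ _, max_le zero_le_one h⟩
    rw [abs_of_nonneg this.1]; exact this.2
  · rw [if_neg h, abs_zero]; exact zero_le_one

variable {C c t : ℝ} {ζ : ℝ → ℝ} {g : ℝ → ℝ → ℝ}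

theorem cont_u (hg : BC C g) (x : ℝ) :
    Continuous (fun u : ℝ => E1 (fun y => g (t + u ^ 2) (x + c * u * y))) :=
  Pool.TH325.AT.cont_E1 (X := ℝ) (Φ := fun u y => g (t + u ^ 2) (x + c * u * y)) (C := C)
    (hg.1.comp (by fun_prop : Continuous fun p : ℝ × ℝ => (t + p.1 ^ 2, x + c * p.1 * p.2)))
    (fun _ _ => hg.2 _ _)

theorem cont_uy (hg : BC C g) (x : ℝ) :
    Continuous (fun u : ℝ => E1 (fun y => y * g (t + u ^ 2) (x + c * u * y))) :=
  cont_E1y (X := ℝ) (Φ := fun u y => g (t + u ^ 2) (x + c * u * y)) (C := C)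
    (hg.1.comp (by fun_prop : Continuous fun p : ℝ × ℝ => (t + p.1 ^ 2, x + c * p.1 * p.2)))
    (fun _ _ => hg.2 _ _)

theorem meas_zt (hζ : IsCdf ζ) : Measurable (fun u : ℝ => zt ζ (t + u ^ 2)) :=
  (zt_meas hζ).comp (by fun_prop : Measurable fun u : ℝ => t + u ^ 2)

theorem meas1 (hζ : IsCdf ζ) (hg : BC C g) (x : ℝ) : Measurable (fun u : ℝ =>
    2 * u * (zt ζ (t + u ^ 2) * E1 (fun y => g (t + u ^ 2) (x + c * u * y)))) :=
  (measurable_const.mul measurable_id).mul ((meas_zt hζ).mul (cont_u hg x).measurable)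

theorem meas2 (hζ : IsCdf ζ) (hg : BC C g) (x : ℝ) : Measurable (fun u : ℝ =>
    2 / c * (zt ζ (t + u ^ 2) * E1 (fun y => y * g (t + u ^ 2) (x + c * u * y)))) :=
  measurable_const.mul ((meas_zt hζ).mul (cont_uy hg x).measurable)

theorem bd1 (hζ : IsCdf ζ) (hg : BC C g) (x u : ℝ) (hu : u ∈ Set.uIoc (0 : ℝ) 1) :
    |2 * u * (zt ζ (t + u ^ 2) * E1 (fun y => g (t + u ^ 2) (x + c * u * y)))| ≤ 2 * C := by
  rw [Set.uIoc_of_le zero_le_one] at hu
  have hC : 0 ≤ C := (abs_nonneg _).trans (hg.2 0 0)
  have h1 := zt_bd hζ (t + u ^ 2)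
  have h2 : |E1 (fun y => g (t + u ^ 2) (x + c * u * y))| ≤ C :=
    Pool.TH325.AT.E1_bd (fun y => hg.2 _ _)
  rw [abs_mul (2 * u), abs_mul (zt ζ (t + u ^ 2)), abs_of_nonneg (by linarith [hu.1] : 0 ≤ 2 * u)]
  calc 2 * u * (|zt ζ (t + u ^ 2)| * |E1 (fun y => g (t + u ^ 2) (x + c * u * y))|)
      ≤ 2 * 1 * (1 * C) := by
        apply mul_le_mul
        · linarith [hu.2]
        · exact mul_le_mul h1 h2 (abs_nonneg _) zero_le_one
        · positivity
        · norm_num
    _ = 2 * C := by ring

/-- piece EX-DX -/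
theorem t_DX (hS : St_STEIN) (hX : St_HEATX) : St_DX := by
  intro β C ζ g G hβ hζ hg
  have hc : 0 < √(2 * β ^ 2) := Real.sqrt_pos.mpr (by positivity)
  set c := √(2 * β ^ 2) with hcdef
  have hC : 0 ≤ C := (abs_nonneg _).trans (hg.2 0 0)
  constructor
  · intro t _ x
    unfold SP SD
    apply HasDerivAt.const_mul
    refine (intervalIntegral.hasDerivAt_integral_of_dominated_loc_of_deriv_le
      (F := fun x u => 2 * u * (zt ζ (t + u ^ 2) * E1 (fun y => g (t + u ^ 2) (x + c * u * y))))
      (F' := fun x u => 2 / c *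
        (zt ζ (t + u ^ 2) * E1 (fun y => y * g (t + u ^ 2) (x + c * u * y))))
      (bound := fun _ => 2 / c * (1 * (E1 (fun y => |y|) * C))) (s := univ) Filter.univ_mem
      ?_ ?_ ?_ ?_ ?_ ?_).2
    · exact Filter.Eventually.of_forall fun x => (meas1 hζ hg x).aestronglyMeasurable
    · refine (intervalIntegrable_const (c := 2 * C)).mono_fun'
        (meas1 hζ hg x).aestronglyMeasurable ?_
      rw [Filter.EventuallyLE, ae_restrict_iff' measurableSet_uIoc]
      exact Filter.Eventually.of_forall fun u hu => bd1 hζ hg x u hu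
    · exact (meas2 hζ hg x).aestronglyMeasurable
    · refine Filter.Eventually.of_forall fun u _ x _ => ?_
      rw [Real.norm_eq_abs, abs_mul, abs_mul, abs_of_pos (by positivity : 0 < 2 / c)]
      apply mul_le_mul_of_nonneg_left _ (by positivity)
      exact mul_le_mul (zt_bd hζ _) (E1y_bd (fun y => hg.2 _ _)) (abs_nonneg _) zero_le_one
    · exact intervalIntegrable_const
    · refine Filter.Eventually.of_forall fun u hu x _ => ?_
      rw [Set.uIoc_of_le zero_le_one] at hu
      have hu0 : 0 < u := hu.1
      have h1 := gauss hS (g (t + u ^ 2)) C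
        (hg.1.comp (by fun_prop : Continuous fun x : ℝ => (t + u ^ 2, x))) (hg.2 _) (c * u) x
        (by positivity)
      have h2 := (h1.const_mul (zt ζ (t + u ^ 2))).const_mul (2 * u)
      have h3 : 2 * u * (zt ζ (t + u ^ 2) *
          (E1 (fun y => y * g (t + u ^ 2) (x + c * u * y)) / (c * u)))
          = 2 / c * (zt ζ (t + u ^ 2) * E1 (fun y => y * g (t + u ^ 2) (x + c * u * y))) := by
        generalize E1 (fun y => y * g (t + u ^ 2) (x + c * u * y)) = e
        field_simp
      rw [h3] at h2
      exact h2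
  · intro hG hd t _ x
    unfold SP
    apply HasDerivAt.const_mul
    refine (intervalIntegral.hasDerivAt_integral_of_dominated_loc_of_deriv_le
      (F := fun x u => 2 * u * (zt ζ (t + u ^ 2) * E1 (fun y => G (t + u ^ 2) (x + c * u * y))))
      (F' := fun x u => 2 * u *
        (zt ζ (t + u ^ 2) * E1 (fun y => g (t + u ^ 2) (x + c * u * y))))
      (bound := fun _ => 2 * C) (s := univ) Filter.univ_mem
      ?_ ?_ ?_ ?_ ?_ ?_).2
    · exact Filter.Eventually.of_forall fun x => (meas1 hζ hG x).aestronglyMeasurable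
    · refine (intervalIntegrable_const (c := 2 * C)).mono_fun'
        (meas1 hζ hG x).aestronglyMeasurable ?_
      rw [Filter.EventuallyLE, ae_restrict_iff' measurableSet_uIoc]
      exact Filter.Eventually.of_forall fun u hu => bd1 hζ hG x u hu
    · exact (meas1 hζ hg x).aestronglyMeasurable
    · exact Filter.Eventually.of_forall fun u hu x _ => bd1 hζ hg x u hu
    · exact intervalIntegrable_const
    · refine Filter.Eventually.of_forall fun u _ x _ => ?_
      have h1 := hX (G (t + u ^ 2)) (g (t + u ^ 2)) C (hd (t + u ^ 2))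
        (hg.1.comp (by fun_prop : Continuous fun x : ℝ => (t + u ^ 2, x))) (hg.2 _) (c * u) x
      exact (h1.const_mul (zt ζ (t + u ^ 2))).const_mul (2 * u)

end Pool.TH283.AT

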