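import Pool.Agent.TH316.AT.Ex
import Pool.Agent.TH325.AT.Tanh
import Pool.Agent.TH283.AT.CORE

set_option autoImplicit false

open MeasureTheory ProbabilityTheory Set

namespace Pool.TH283.AT

open Pool.TH198.AT Pool.TH316.AT

theorem PP_eq (β : ℝ) (g : ℝ → ℝ) (t x : ℝ) :
    Pool.TH316.AT.PP β g t x = Pool.TH325.AT.PP (2 * β ^ 2) 1 g t x := rfl

theorem th1_eq : (fun x => sech x ^ 2) = Pool.TH325.AT.th1 := by
  funext x
  unfold Pool.TH325.AT.th1
  rw [tanh_sq_add]; ring

theorem hasDerivAt_logcosh (x : ℝ) :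
    HasDerivAt (fun x => Real.log (Real.cosh x)) (Real.tanh x) x := by
  have h := (Real.hasDerivAt_cosh x).log (Real.cosh_pos x).ne'
  rwa [← Real.tanh_eq_sinh_div_cosh] at h

theorem C2b_logcosh : C2b (fun x => Real.log (Real.cosh x)) Real.tanh Pool.TH325.AT.th1 :=
  ⟨hasDerivAt_logcosh, Pool.TH325.AT.hasDerivAt_tanh, Pool.TH325.AT.continuous_th1, 1, fun x =>
    ⟨Pool.TH325.AT.abs_tanh x, Pool.TH325.AT.abs_th1 x⟩⟩

theorem continuous_ck : Continuous ck := by
  unfold ck; fun_prop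

/-- piece EX-PT -/
theorem t_PT (hH : St_HEAT) (hX : St_HEATX) : St_PT := by
  intro β hβ
  have ha : 0 < 2 * β ^ 2 := by positivity
  have key : ∀ (F : ℝ → ℝ), Continuous F → (∀ x, |F x| ≤ 1) →
      BC 1 (fun t x => Pool.TH316.AT.PP β F (ck t) x) := by
    intro F hF hb
    constructor
    · have h1 := Pool.TH325.AT.PP_cont (a := 2 * β ^ 2) (q := 1) hF hb
      exact Continuous.comp (g := fun p : ℝ × ℝ => Pool.TH325.AT.PP (2 * β ^ 2) 1 F p.1 p.2)
        (f := fun p : ℝ × ℝ => (ck p.1, p.2)) h1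
        ((continuous_ck.comp continuous_fst).prodMk continuous_snd)
    · intro t x
      exact Pool.TH325.AT.PP_bd (a := 2 * β ^ 2) (q := 1) hb (ck t) x
  refine ⟨key _ Pool.TH325.AT.continuous_tanh Pool.TH325.AT.abs_tanh, ?_, ?_⟩
  · rw [th1_eq]
    exact key _ Pool.TH325.AT.continuous_th1 Pool.TH325.AT.abs_th1
  · intro t ht x
    rw [th1_eq]
    refine ⟨?_, ?_, ?_⟩
    · exact hX _ _ 1 hasDerivAt_logcosh Pool.TH325.AT.continuous_tanh Pool.TH325.AT.abs_tanh _ x
    · exact hX _ _ 1 Pool.TH325.AT.hasDerivAt_tanh Pool.TH325.AT.continuous_th1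
        Pool.TH325.AT.abs_th1 _ x
    · -- the fundamental theorem of calculus in time
      have hcont : Continuous (fun r : ℝ =>
          Pool.TH316.AT.PP β (fun x => Real.log (Real.cosh x)) r x) := by
        have h1 := (hH _ _ _ C2b_logcosh).2
        exact Continuous.comp (g := fun p : ℝ × ℝ => E1 (fun y =>
            (fun x => Real.log (Real.cosh x)) (p.1 + √p.2 * y)))
          (f := fun r : ℝ => (x, 2 * β ^ 2 * (1 - r))) h1 (by fun_prop)
      have hcont2 : Continuous (fun r : ℝ =>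
          -(2 * β ^ 2 / 2 * Pool.TH325.AT.PP (2 * β ^ 2) 1 Pool.TH325.AT.th1 r x)) := by
        have h1 := Pool.TH325.AT.PP_cont (a := 2 * β ^ 2) (q := 1)
          Pool.TH325.AT.continuous_th1 Pool.TH325.AT.abs_th1
        have h2 : Continuous (fun r : ℝ => Pool.TH325.AT.PP (2 * β ^ 2) 1 Pool.TH325.AT.th1 r x) :=
          Continuous.comp (g := fun p : ℝ × ℝ =>
            Pool.TH325.AT.PP (2 * β ^ 2) 1 Pool.TH325.AT.th1 p.1 p.2)
            (f := fun r : ℝ => (r, x)) h1 (by fun_prop)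
        exact (h2.const_mul _).neg
      have hint := intervalIntegral.integral_eq_sub_of_hasDerivAt_of_le ht.2
        hcont.continuousOn
        (fun r hr => Pool.TH325.AT.PP_t (a := 2 * β ^ 2) (q := 1) hH C2b_logcosh ha hr.2 x)
        (hcont2.intervalIntegrable t 1)
      have h3 : Pool.TH316.AT.PP β (fun x => Real.log (Real.cosh x)) 1 x
          = Real.log (Real.cosh x) := by
        rw [PP_eq, Pool.TH325.AT.PP_q]
      rw [h3] at hint
      have h4 : ∫ r in t..1, -(2 * β ^ 2 / 2 * Pool.TH325.AT.PP (2 * β ^ 2) 1 Pool.TH325.AT.th1 r x)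
          = -∫ r in t..1, β ^ 2 * Pool.TH316.AT.PP β Pool.TH325.AT.th1 r x := by
        rw [← intervalIntegral.integral_neg]
        congr 1
        funext r
        rw [PP_eq]; ring
      rw [h4] at hint
      linarith

end Pool.TH283.AT

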